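import Mathlib

set_option autoImplicit false

/-!
# There is no projection from the bounded sequences onto `c₀`

A bounded operator from the bounded sequences to `c₀` cannot fix all unit vectors.
-/

open Set Filter Topology BoundedContinuousFunction

namespace Pool.Agent.Helper21.CWW

/-- The bounded sequence given by a bounded function. -/
noncomputable def bseq (f : ℕ → ℝ) (C : ℝ) (h : ∀ n, |f n| ≤ C) : ℕ →ᵇ ℝ :=
  BoundedContinuousFunction.ofNormedAddCommGroupDiscrete f C h

@[simp] theorem bseq_apply (f : ℕ → ℝ) (C : ℝ) (h : ∀ n, |f n| ≤ C) (n : ℕ) :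
    bseq f C h n = f n := rfl

/-- Unit vectors. -/
noncomputable def single (k : ℕ) : ℕ →ᵇ ℝ :=
  bseq (fun n => if n = k then 1 else 0) 1 (fun n => by split_ifs <;> simp)

theorem single_apply (k n : ℕ) : single k n = if n = k then 1 else 0 := rfl

/-- Indicator functions. -/
noncomputable def ind (A : Set ℕ) : ℕ →ᵇ ℝ := by
  classical
  exact bseq (fun n => if n ∈ A then 1 else 0) 1 (fun n => by split_ifs <;> simp)

open Classical in
theorem ind_apply (A : Set ℕ) (n : ℕ) : ind A n = if n ∈ A then 1 else 0 := rfl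

/-- An almost disjoint family indexed by the branches of the binary tree. -/
def br (ξ : ℕ → Bool) (n : ℕ) : ℕ := Encodable.encode ((List.range n).map ξ)

theorem br_eq {ξ η : ℕ → Bool} {n m : ℕ} (h : br ξ n = br η m) :
    n = m ∧ ∀ i < n, ξ i = η i := by
  have h1 := Encodable.encode_injective h
  have h2 : n = m := by
    have := congrArg List.length h1
    simpa using this
  subst h2
  refine ⟨rfl, fun i hi => ?_⟩
  have h3 : ((List.range n).map ξ)[i]? = ((List.range n).map η)[i]? := by rw [h1]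
  simpa [hi] using h3

theorem br_injective (ξ : ℕ → Bool) : Function.Injective (br ξ) := fun _ _ h => (br_eq h).1

theorem inter_finite {ξ η : ℕ → Bool} (h : ξ ≠ η) : (range (br ξ) ∩ range (br η)).Finite := by
  obtain ⟨k, hk⟩ := Function.ne_iff.1 h
  refine ((finite_Iic k).image (br ξ)).subset ?_
  rintro _ ⟨⟨n, rfl⟩, ⟨m, hm⟩⟩
  refine ⟨n, ?_, rfl⟩
  by_contra hn
  rw [mem_Iic, not_le] at hn
  exact hk ((br_eq hm.symm).2 k hn)

/-- For a bounded operator which fixes the unit vectors, all but countably many of the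
branches satisfy `L (1_A) n = 1_A n`. -/
theorem countable_bad (Ψ : (ℕ →ᵇ ℝ) →L[ℝ] ℝ) (hΨ : ∀ k, Ψ (single k) = 0) :
    {ξ : ℕ → Bool | Ψ (ind (range (br ξ))) ≠ 0}.Countable := by
  classical
  have hsum : Summable fun ξ : ℕ → Bool => |Ψ (ind (range (br ξ)))| := by
    refine summable_of_sum_le (c := ‖Ψ‖) (fun ξ => abs_nonneg _) fun F => ?_
    -- a bound for the intersections
    obtain ⟨M, hM⟩ : ∃ M : ℕ, ∀ ξ ∈ F, ∀ η ∈ F, ξ ≠ η → ∀ k ∈ range (br ξ) ∩ range (br η),
        k < M := by
      have hfin : (⋃ ξ ∈ F, ⋃ η ∈ F, ⋃ _ : ξ ≠ η, range (br ξ) ∩ range (br η)).Finite := by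
        refine F.finite_toSet.biUnion fun ξ _ => F.finite_toSet.biUnion fun η _ =>
          Set.finite_iUnion fun h => inter_finite h
      obtain ⟨M, hM⟩ := hfin.bddAbove
      refine ⟨M + 1, fun ξ hξ η hη hne k hk => Nat.lt_succ_of_le (hM ?_)⟩
      simp only [mem_iUnion]
      exact ⟨ξ, hξ, η, hη, hne, hk⟩
    let s : (ℕ → Bool) → ℝ := fun ξ => (SignType.sign (Ψ (ind (range (br ξ)))) : ℝ)
    have hs : ∀ ξ, |s ξ| ≤ 1 := by
      intro ξ
      rcases lt_trichotomy (Ψ (ind (range (br ξ)))) 0 with h | h | h <;> simp [s, h]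
    let b : ℕ →ᵇ ℝ := ∑ ξ ∈ F, s ξ • ind (range (br ξ))
    have hb : ∀ n, b n = ∑ ξ ∈ F, s ξ * (if n ∈ range (br ξ) then 1 else 0) := by
      intro n
      simp only [b, BoundedContinuousFunction.coe_sum, Finset.sum_apply,
        BoundedContinuousFunction.coe_smul, smul_eq_mul, ind_apply]
    have hΨb : Ψ b = ∑ ξ ∈ F, |Ψ (ind (range (br ξ)))| := by
      simp only [b, map_sum, map_smul, smul_eq_mul]
      exact Finset.sum_congr rfl fun ξ _ => sign_mul_self _
    -- the tail of `b` is bounded by `1`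
    have htail : ∀ n, |if n < M then (0 : ℝ) else b n| ≤ 1 := by
      intro n
      split_ifs with h
      · simp
      · rw [hb]
        by_cases hex : ∃ ξ ∈ F, n ∈ range (br ξ)
        · obtain ⟨ξ, hξ, hn⟩ := hex
          rw [Finset.sum_eq_single ξ]
          · rw [if_pos hn, mul_one]
            exact hs ξ
          · intro η hη hne
            rw [if_neg, mul_zero]
            intro hn'
            exact h (hM ξ hξ η hη (Ne.symm hne) n ⟨hn, hn'⟩)
          · intro h'
            exact absurd hξ h'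
        · rw [Finset.sum_eq_zero]
          · simp
          · intro ξ hξ
            rw [if_neg (fun hn => hex ⟨ξ, hξ, hn⟩), mul_zero]
    let u : ℕ →ᵇ ℝ := bseq _ 1 htail
    have hu : ‖u‖ ≤ 1 := (BoundedContinuousFunction.norm_le zero_le_one).2 htail
    have hdecomp : b = u + ∑ k ∈ Finset.range M, b k • single k := by
      ext n
      simp only [u, BoundedContinuousFunction.coe_add, Pi.add_apply, bseq_apply,
        BoundedContinuousFunction.coe_sum, Finset.sum_apply, BoundedContinuousFunction.coe_smul,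
        smul_eq_mul, single_apply, mul_ite, mul_one, mul_zero]
      rw [Finset.sum_ite_eq]
      by_cases h : n < M
      · rw [if_pos h, if_pos (Finset.mem_range.2 h), zero_add]
      · rw [if_neg h, if_neg (fun h' => h (Finset.mem_range.1 h')), add_zero]
    have hΨu : Ψ b = Ψ u := by
      conv_lhs => rw [hdecomp]
      rw [map_add, map_sum]
      simp only [map_smul, hΨ, smul_zero, Finset.sum_const_zero, add_zero]
    rw [← hΨb, hΨu]
    calc Ψ u ≤ ‖Ψ u‖ := le_abs_self _
      _ ≤ ‖Ψ‖ * ‖u‖ := Ψ.le_opNorm u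
      _ ≤ ‖Ψ‖ * 1 := mul_le_mul_of_nonneg_left hu (norm_nonneg Ψ)
      _ = ‖Ψ‖ := mul_one _
  refine hsum.countable_support.mono fun ξ hξ => ?_
  exact abs_ne_zero.2 hξ

/-- A bounded operator from the bounded sequences to `c₀` does not fix all unit vectors. -/
theorem phillips (L : (ℕ →ᵇ ℝ) →L[ℝ] ZeroAtInftyContinuousMap ℕ ℝ)
    (hL : ∀ k n, L (single k) n = if n = k then 1 else 0) : False := by
  classical
  -- evaluation functionals
  have hev : ∀ n : ℕ, ∃ Ψ : (ℕ →ᵇ ℝ) →L[ℝ] ℝ, ∀ a, Ψ a = L a n - a n := by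
    intro n
    refine ⟨LinearMap.mkContinuous
      { toFun := fun a => L a n - a n
        map_add' := fun a b => by
          simp only [map_add, BoundedContinuousFunction.coe_add, Pi.add_apply,
            ZeroAtInftyContinuousMap.coe_add]
          ring
        map_smul' := fun t a => by
          simp only [map_smul, BoundedContinuousFunction.coe_smul, smul_eq_mul,
            ZeroAtInftyContinuousMap.coe_smul, Pi.smul_apply, RingHom.id_apply]
          ring } (‖L‖ + 1) ?_, fun a => rfl⟩
    intro a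
    change |L a n - a n| ≤ (‖L‖ + 1) * ‖a‖
    have h1 : |L a n| ≤ ‖L a‖ := by
      rw [← ZeroAtInftyContinuousMap.norm_toBCF_eq_norm]
      exact (L a).toBCF.norm_coe_le_norm n
    have h2 : |a n| ≤ ‖a‖ := a.norm_coe_le_norm n
    have h3 := L.le_opNorm a
    calc |L a n - a n| ≤ |L a n| + |a n| := abs_sub _ _
      _ ≤ ‖L‖ * ‖a‖ + ‖a‖ := add_le_add (h1.trans h3) h2
      _ = (‖L‖ + 1) * ‖a‖ := by ring
  choose Ψ hΨ using hev
  have hcount : (⋃ n, {ξ : ℕ → Bool | Ψ n (ind (range (br ξ))) ≠ 0}).Countable := by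
    refine countable_iUnion fun n => countable_bad (Ψ n) fun k => ?_
    rw [hΨ, hL, single_apply, sub_self]
  have hex : ∃ ξ : ℕ → Bool, ξ ∉ ⋃ n, {ξ : ℕ → Bool | Ψ n (ind (range (br ξ))) ≠ 0} := by
    by_contra hcon
    push Not at hcon
    have huniv : (univ : Set (ℕ → Bool)).Countable := by
      rw [← eq_univ_of_forall hcon]
      exact hcount
    have : Countable (ℕ → Bool) := Set.countable_univ_iff.1 huniv
    obtain ⟨f, hf⟩ := exists_surjective_nat (ℕ → Bool)
    obtain ⟨n, hn⟩ := hf (fun k => !(f k k))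
    have h1 := congrFun hn n
    simp at h1
  obtain ⟨ξ, hξ⟩ := hex
  have hfix : ∀ n, L (ind (range (br ξ))) n = ind (range (br ξ)) n := by
    intro n
    by_contra hne
    apply hξ
    rw [mem_iUnion]
    exact ⟨n, by rw [mem_ofPred_eq, hΨ]; exact sub_ne_zero.2 hne⟩
  have hz : Tendsto (fun n => L (ind (range (br ξ))) n) (cocompact ℕ) (𝓝 0) :=
    (L (ind (range (br ξ)))).zero_at_infty'
  rw [cocompact_eq_cofinite, Nat.cofinite_eq_atTop] at hz
  have hinf : (range (br ξ)).Infinite := Set.infinite_range_of_injective (br_injective ξ)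
  have hev := (tendsto_order.1 hz).2 1 one_pos
  rw [eventually_atTop] at hev
  obtain ⟨N, hN⟩ := hev
  obtain ⟨n, hn, hlt⟩ := hinf.exists_gt N
  have h1 := hN n hlt.le
  rw [hfix, ind_apply, if_pos hn] at h1
  exact lt_irrefl _ h1

end Pool.Agent.Helper21.CWW
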