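import Mathlib
import Pool.Agent.Helper21.CWW.Phillips

set_option autoImplicit false

/-!
# The Banach space of bounded measurable functions has no complemented copy of `c₀`
-/

open Set Filter Topology BoundedContinuousFunction
open scoped ENNReal

namespace Pool.Agent.Helper21.CWW

variable (G : Type) [MeasurableSpace G]

/-- The bounded measurable functions on `G`, a subspace of the space of all bounded functions. -/
def BM : Submodule ℝ (lp (fun _ : G => ℝ) ∞) where
  carrier := {f | Measurable fun x => f x}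
  add_mem' := by
    intro f g hf hg
    change Measurable fun x => (f + g : lp (fun _ : G => ℝ) ∞) x
    have : (fun x => (f + g : lp (fun _ : G => ℝ) ∞) x) = fun x => f x + g x := by
      funext x; rfl
    rw [this]
    exact Measurable.add hf hg
  zero_mem' := by
    change Measurable fun x => (0 : lp (fun _ : G => ℝ) ∞) x
    exact measurable_const
  smul_mem' := by
    intro c f hf
    change Measurable fun x => (c • f : lp (fun _ : G => ℝ) ∞) x
    have : (fun x => (c • f : lp (fun _ : G => ℝ) ∞) x) = fun x => c * f x := by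
      funext x; rfl
    rw [this]
    exact Measurable.const_mul hf c

variable {G}

theorem measurable_BM (f : BM G) : Measurable fun x => f.1 x := f.2

theorem abs_le_norm (f : BM G) (x : G) : |f.1 x| ≤ ‖f‖ :=
  lp.norm_apply_le_norm ENNReal.top_ne_zero f.1 x

theorem norm_le_BM (f : BM G) (C : ℝ) (hC : 0 ≤ C) (h : ∀ x, |f.1 x| ≤ C) : ‖f‖ ≤ C :=
  lp.norm_le_of_forall_le hC h

/-- Construction of elements. -/
def mkBM (g : G → ℝ) (hg : Measurable g) (C : ℝ) (h : ∀ x, |g x| ≤ C) : BM G :=
  ⟨⟨g, memℓp_infty ⟨C, by rintro _ ⟨x, rfl⟩; exact h x⟩⟩, hg⟩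

@[simp] theorem mkBM_apply (g : G → ℝ) (hg : Measurable g) (C : ℝ) (h : ∀ x, |g x| ≤ C) (x : G) :
    (mkBM g hg C h).1 x = g x := rfl

theorem ext_BM {f g : BM G} (h : ∀ x, f.1 x = g.1 x) : f = g := by
  apply Subtype.ext
  apply lp.ext
  funext x
  exact h x

theorem add_apply_BM (f g : BM G) (x : G) : (f + g).1 x = f.1 x + g.1 x := rfl

theorem smul_apply_BM (c : ℝ) (f : BM G) (x : G) : (c • f).1 x = c * f.1 x := rfl

theorem sub_apply_BM (f g : BM G) (x : G) : (f - g).1 x = f.1 x - g.1 x := rfl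

theorem isClosed_BM : IsClosed (BM G : Set (lp (fun _ : G => ℝ) ∞)) := by
  refine IsSeqClosed.isClosed fun u f hu hf => ?_
  refine measurable_of_tendsto_metrizable (f := fun n x => u n x) (fun n => hu n) ?_
  rw [tendsto_pi_nhds]
  intro x
  rw [tendsto_iff_norm_sub_tendsto_zero]
  have h1 : Tendsto (fun n => ‖u n - f‖) atTop (𝓝 0) := tendsto_iff_norm_sub_tendsto_zero.1 hf
  refine squeeze_zero (fun n => norm_nonneg _) (fun n => ?_) h1
  exact lp.norm_apply_le_norm ENNReal.top_ne_zero (u n - f) x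

instance : CompleteSpace (BM G) := isClosed_BM.completeSpace_coe

/-- The unit vectors of `c₀`. -/
noncomputable def e0 (k : ℕ) : ZeroAtInftyContinuousMap ℕ ℝ :=
  ⟨⟨fun n => if n = k then 1 else 0, continuous_of_discreteTopology⟩, by
    change Tendsto (fun n => if n = k then (1 : ℝ) else 0) (cocompact ℕ) (𝓝 0)
    rw [cocompact_eq_cofinite, Nat.cofinite_eq_atTop]
    refine tendsto_const_nhds.congr' ?_
    filter_upwards [eventually_gt_atTop k] with n hn
    rw [if_neg hn.ne']⟩

theorem e0_apply (k n : ℕ) : e0 k n = if n = k then 1 else 0 := rfl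

theorem norm_c0_le (v : ZeroAtInftyContinuousMap ℕ ℝ) (C : ℝ) (hC : 0 ≤ C)
    (h : ∀ n, |v n| ≤ C) : ‖v‖ ≤ C := by
  rw [← ZeroAtInftyContinuousMap.norm_toBCF_eq_norm]
  exact (BoundedContinuousFunction.norm_le hC).2 h

/-- The images of the unit vectors form a weakly unconditionally Cauchy series. -/
theorem wuc (T : ZeroAtInftyContinuousMap ℕ ℝ →L[ℝ] BM G) (x : G) (F : Finset ℕ) :
    ∑ n ∈ F, |(T (e0 n)).1 x| ≤ ‖T‖ := by
  classical
  let s : ℕ → ℝ := fun n => (SignType.sign ((T (e0 n)).1 x) : ℝ)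
  have hs : ∀ n, |s n| ≤ 1 := by
    intro n
    rcases lt_trichotomy ((T (e0 n)).1 x) 0 with h | h | h <;> simp [s, h]
  let v : ZeroAtInftyContinuousMap ℕ ℝ := ∑ n ∈ F, s n • e0 n
  have hv : ∀ k, v k = if k ∈ F then s k else 0 := by
    intro k
    have h1 : v k = ∑ n ∈ F, s n * (if k = n then 1 else 0) := by
      have h2 : ∀ F : Finset ℕ, (∑ n ∈ F, s n • e0 n : ZeroAtInftyContinuousMap ℕ ℝ) k =
          ∑ n ∈ F, s n * (if k = n then 1 else 0) := by
        intro F
        induction F using Finset.induction_on with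
        | empty => simp
        | insert a F ha ih =>
          rw [Finset.sum_insert ha, Finset.sum_insert ha, ← ih]
          rfl
      exact h2 F
    rw [h1]
    simp only [mul_ite, mul_one, mul_zero]
    rw [Finset.sum_ite_eq]
  have hvn : ‖v‖ ≤ 1 := by
    refine norm_c0_le v 1 zero_le_one fun k => ?_
    rw [hv]
    split_ifs
    · exact hs k
    · simp
  have h3 : (T v).1 x = ∑ n ∈ F, |(T (e0 n)).1 x| := by
    have h4 : ∀ F : Finset ℕ, (T (∑ n ∈ F, s n • e0 n)).1 x = ∑ n ∈ F, |(T (e0 n)).1 x| := by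
      intro F
      induction F using Finset.induction_on with
      | empty => simp
      | insert a F ha ih =>
        rw [Finset.sum_insert ha, Finset.sum_insert ha, map_add, map_smul, add_apply_BM,
          smul_apply_BM, ih]
        congr 1
        exact sign_mul_self _
    exact h4 F
  rw [← h3]
  calc (T v).1 x ≤ |(T v).1 x| := le_abs_self _
    _ ≤ ‖T v‖ := abs_le_norm _ _
    _ ≤ ‖T‖ * ‖v‖ := T.le_opNorm v
    _ ≤ ‖T‖ * 1 := mul_le_mul_of_nonneg_left hvn (norm_nonneg T)
    _ = ‖T‖ := mul_one _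

theorem summable_wuc (T : ZeroAtInftyContinuousMap ℕ ℝ →L[ℝ] BM G) (x : G) :
    Summable fun n => |(T (e0 n)).1 x| :=
  summable_of_sum_le (fun _ => abs_nonneg _) (wuc T x)

theorem summable_mul (T : ZeroAtInftyContinuousMap ℕ ℝ →L[ℝ] BM G) (a : ℕ →ᵇ ℝ) (x : G) :
    Summable fun n => a n * (T (e0 n)).1 x := by
  refine Summable.of_norm_bounded ((summable_wuc T x).mul_left ‖a‖) fun n => ?_
  rw [Real.norm_eq_abs, abs_mul]
  exact mul_le_mul_of_nonneg_right (a.norm_coe_le_norm n) (abs_nonneg _)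

theorem abs_tsum_le (T : ZeroAtInftyContinuousMap ℕ ℝ →L[ℝ] BM G) (a : ℕ →ᵇ ℝ) (x : G) :
    |∑' n, a n * (T (e0 n)).1 x| ≤ ‖T‖ * ‖a‖ := by
  have h1 : ‖∑' n, a n * (T (e0 n)).1 x‖ ≤ ∑' n, ‖a‖ * |(T (e0 n)).1 x| := by
    refine tsum_of_norm_bounded ((summable_wuc T x).mul_left ‖a‖).hasSum fun n => ?_
    rw [Real.norm_eq_abs, abs_mul]
    exact mul_le_mul_of_nonneg_right (a.norm_coe_le_norm n) (abs_nonneg _)
  rw [tsum_mul_left] at h1
  have h2 : ∑' n, |(T (e0 n)).1 x| ≤ ‖T‖ :=
    (summable_wuc T x).tsum_le_of_sum_le (wuc T x)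
  rw [Real.norm_eq_abs] at h1
  calc _ ≤ _ := h1
    _ ≤ ‖a‖ * ‖T‖ := mul_le_mul_of_nonneg_left h2 (norm_nonneg a)
    _ = ‖T‖ * ‖a‖ := mul_comm _ _

theorem measurable_tsum' (T : ZeroAtInftyContinuousMap ℕ ℝ →L[ℝ] BM G) (a : ℕ →ᵇ ℝ) :
    Measurable fun x => ∑' n, a n * (T (e0 n)).1 x := by
  refine measurable_of_tendsto_metrizable
    (f := fun (N : ℕ) (x : G) => ∑ n ∈ Finset.range N, a n * (T (e0 n)).1 x) (fun N => ?_) ?_
  · exact Finset.measurable_fun_sum _ fun n _ => (measurable_BM _).const_mul _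
  · rw [tendsto_pi_nhds]
    intro x
    exact (summable_mul T a x).hasSum.tendsto_sum_nat

/-- The extension of an operator on `c₀` to the bounded sequences. -/
noncomputable def extend (T : ZeroAtInftyContinuousMap ℕ ℝ →L[ℝ] BM G) : (ℕ →ᵇ ℝ) →L[ℝ] BM G :=
  LinearMap.mkContinuous
    { toFun := fun a => mkBM (fun x => ∑' n, a n * (T (e0 n)).1 x) (measurable_tsum' T a)
        (‖T‖ * ‖a‖) (abs_tsum_le T a)
      map_add' := fun a b => by
        apply ext_BM
        intro x
        rw [add_apply_BM]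
        simp only [mkBM_apply, BoundedContinuousFunction.coe_add, Pi.add_apply]
        rw [← (summable_mul T a x).tsum_add (summable_mul T b x)]
        exact tsum_congr fun n => by ring
      map_smul' := fun t a => by
        apply ext_BM
        intro x
        rw [smul_apply_BM]
        simp only [mkBM_apply, BoundedContinuousFunction.coe_smul, smul_eq_mul, RingHom.id_apply]
        rw [← tsum_mul_left]
        exact tsum_congr fun n => by ring }
    ‖T‖ (fun a => norm_le_BM _ _ (by positivity) (abs_tsum_le T a))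

theorem extend_single (T : ZeroAtInftyContinuousMap ℕ ℝ →L[ℝ] BM G) (k : ℕ) :
    extend T (single k) = T (e0 k) := by
  apply ext_BM
  intro x
  change ∑' n, single k n * (T (e0 n)).1 x = _
  rw [tsum_eq_single k]
  · rw [single_apply, if_pos rfl, one_mul]
  · intro n hn
    rw [single_apply, if_neg hn, zero_mul]

/-- The bounded measurable functions have no complemented copy of `c₀`. -/
theorem no_c0 (T : ZeroAtInftyContinuousMap ℕ ℝ →L[ℝ] BM G)
    (P : BM G →L[ℝ] ZeroAtInftyContinuousMap ℕ ℝ)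
    (h : P.comp T = ContinuousLinearMap.id ℝ _) : False := by
  refine phillips (P.comp (extend T)) fun k n => ?_
  rw [ContinuousLinearMap.comp_apply, extend_single]
  have h1 : P (T (e0 k)) = e0 k := by
    have := congrArg (fun L => L (e0 k)) h
    exact this
  rw [h1, e0_apply]

end Pool.Agent.Helper21.CWW
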