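import Mathlib
import Pool.Agent.Helper21.CWW.BM

set_option autoImplicit false
set_option linter.unusedSectionVars false

/-!
# The convolution projection
-/

open Set Filter Topology BoundedContinuousFunction MeasureTheory
open scoped ENNReal

namespace Pool.Agent.Helper21.CWW

/-! ### Limits along an ultrafilter -/

/-- The limit of a bounded sequence along a fixed free ultrafilter. -/
noncomputable def ul (b : ℕ → ℝ) : ℝ := limUnder (hyperfilter ℕ : Filter ℕ) b

theorem tendsto_ul (b : ℕ → ℝ) (C : ℝ) (h : ∀ n, |b n| ≤ C) :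
    Tendsto b (hyperfilter ℕ : Filter ℕ) (𝓝 (ul b)) := by
  obtain ⟨L, -, hL⟩ := (isCompact_Icc (a := -C) (b := C)).ultrafilter_le_nhds
    ((hyperfilter ℕ).map b) (by
      rw [le_principal_iff]
      change b ⁻¹' _ ∈ (hyperfilter ℕ : Filter ℕ)
      exact Filter.univ_mem' fun n => abs_le.1 (h n))
  exact tendsto_nhds_limUnder ⟨L, hL⟩

theorem ul_eq (b : ℕ → ℝ) (L : ℝ) (h : Tendsto b atTop (𝓝 L)) : ul b = L := by
  have h1 : (hyperfilter ℕ : Filter ℕ) ≤ atTop := by
    rw [← Nat.cofinite_eq_atTop]; exact hyperfilter_le_cofinite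
  exact (h.mono_left h1).limUnder_eq

theorem abs_ul_le (b : ℕ → ℝ) (C : ℝ) (h : ∀ n, |b n| ≤ C) : |ul b| ≤ C :=
  le_of_tendsto (tendsto_ul b C h).abs (Filter.Eventually.of_forall h)

theorem ul_add (b b' : ℕ → ℝ) (C C' : ℝ) (h : ∀ n, |b n| ≤ C) (h' : ∀ n, |b' n| ≤ C') :
    ul (fun n => b n + b' n) = ul b + ul b' :=
  ((tendsto_ul b C h).add (tendsto_ul b' C' h')).limUnder_eq

theorem ul_mul (b : ℕ → ℝ) (C t : ℝ) (h : ∀ n, |b n| ≤ C) :
    ul (fun n => t * b n) = t * ul b :=
  ((tendsto_ul b C h).const_mul t).limUnder_eq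

theorem abs_ul_sub_le (b b' : ℕ → ℝ) (C C' D : ℝ) (h : ∀ n, |b n| ≤ C) (h' : ∀ n, |b' n| ≤ C')
    (hD : ∀ n, |b n - b' n| ≤ D) : |ul b - ul b'| ≤ D :=
  le_of_tendsto ((tendsto_ul b C h).sub (tendsto_ul b' C' h')).abs
    (Filter.Eventually.of_forall hD)

section

variable {G : Type} [AddCommGroup G] [TopologicalSpace G] [IsTopologicalAddGroup G]
  [CompactSpace G]

/-- Uniform continuity. -/
theorem unif (f : G → ℝ) (hf : Continuous f) (ε : ℝ) (hε : 0 < ε) :
    ∀ᶠ z in 𝓝 (0 : G), ∀ y, |f (y + z) - f y| < ε := by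
  have h : ∀ᶠ z in 𝓝 (0 : G), ∀ y ∈ (univ : Set G), |f (y + z) - f y| < ε := by
    refine isCompact_univ.eventually_forall_of_forall_eventually
      (P := fun z y => |f (y + z) - f y| < ε) fun y _ => ?_
    have hc : Continuous fun q : G × G => |f (q.2 + q.1) - f q.2| := by fun_prop
    have h0 : |f (y + 0) - f y| < ε := by simpa using hε
    exact hc.continuousAt.eventually (gt_mem_nhds h0) |>.mono fun _ h => h
  filter_upwards [h] with z hz y
  exact hz y (mem_univ y)

variable [T2Space G] [SecondCountableTopology G] [MeasurableSpace G] [BorelSpace G]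
  (μ : Measure G) [IsProbabilityMeasure μ] [μ.IsAddLeftInvariant]

omit [AddCommGroup G] [TopologicalSpace G] [IsTopologicalAddGroup G] [CompactSpace G] [T2Space G]
  [SecondCountableTopology G] [BorelSpace G] [μ.IsAddLeftInvariant] in
theorem integrable_bdd (f : G → ℝ) (hf : Measurable f) (C : ℝ) (h : ∀ x, |f x| ≤ C) :
    Integrable f μ :=
  Integrable.of_bound hf.aestronglyMeasurable C (Filter.Eventually.of_forall h)

omit [AddCommGroup G] [TopologicalSpace G] [IsTopologicalAddGroup G] [CompactSpace G] [T2Space G]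
  [SecondCountableTopology G] [BorelSpace G] [μ.IsAddLeftInvariant] in
theorem abs_integral_le (f : G → ℝ) (C : ℝ) (h : ∀ x, |f x| ≤ C) :
    |∫ x, f x ∂μ| ≤ C := by
  have := norm_integral_le_of_norm_le_const (μ := μ) (f := f) (C := C)
    (Filter.Eventually.of_forall h)
  simpa using this

/-- Translation invariance of integrals. -/
theorem integral_translate (f : G → ℝ) (a : G) : ∫ x, f (x + a) ∂μ = ∫ x, f x ∂μ := by
  have h : (fun x => f (x + a)) = fun x => f (a + x) := by
    funext x; rw [add_comm]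
  rw [h]
  exact integral_add_left_eq_self f a

/-- Translation is continuous in the mean. -/
theorem transl (h : G → ℝ) (hm : Measurable h) (C : ℝ) (hC : ∀ x, |h x| ≤ C) (ε : ℝ)
    (hε : 0 < ε) : ∀ᶠ z in 𝓝 (0 : G), ∫ x, |h (x + z) - h x| ∂μ < ε := by
  have hmet : TopologicalSpace.MetrizableSpace G :=
    TopologicalSpace.metrizableSpace_of_t3_secondCountable G
  have hint := integrable_bdd μ h hm C hC
  obtain ⟨g, hg, hgi⟩ := hint.exists_boundedContinuous_integral_sub_le
    (div_pos hε (by norm_num : (0 : ℝ) < 4))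
  have hgm : Measurable g := g.continuous.measurable
  have hgb : ∀ x, |g x| ≤ ‖g‖ := fun x => g.norm_coe_le_norm x
  filter_upwards [unif g g.continuous (ε / 4) (div_pos hε (by norm_num))] with z hz
  have hmz : Measurable fun x => h (x + z) := hm.comp (measurable_add_const z)
  have hgz : Measurable fun x => g (x + z) := hgm.comp (measurable_add_const z)
  have i1 : Integrable (fun x => |h (x + z) - g (x + z)|) μ :=
    ((integrable_bdd μ _ hmz C (fun x => hC _)).sub
      (integrable_bdd μ _ hgz ‖g‖ (fun x => hgb _))).abs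
  have i2 : Integrable (fun x => |g (x + z) - g x|) μ :=
    ((integrable_bdd μ _ hgz ‖g‖ (fun x => hgb _)).sub
      (integrable_bdd μ _ hgm ‖g‖ hgb)).abs
  have i3 : Integrable (fun x => |h x - g x|) μ := (hint.sub (integrable_bdd μ _ hgm ‖g‖ hgb)).abs
  have i0 : Integrable (fun x => |h (x + z) - h x|) μ :=
    ((integrable_bdd μ _ hmz C (fun x => hC _)).sub hint).abs
  have e1 : ∫ x, |h (x + z) - g (x + z)| ∂μ = ∫ x, |h x - g x| ∂μ :=
    integral_translate μ (fun x => |h x - g x|) z
  have e2 : ∫ x, |g (x + z) - g x| ∂μ ≤ ε / 4 := by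
    have := abs_integral_le μ (fun x => |g (x + z) - g x|) (ε / 4)
      (fun x => by rw [abs_abs]; exact (hz x).le)
    exact (le_abs_self _).trans this
  have e3 : ∫ x, |h x - g x| ∂μ ≤ ε / 4 := hg
  have e4 : ∫ x, |h (x + z) - h x| ∂μ ≤
      ∫ x, (|h (x + z) - g (x + z)| + |g (x + z) - g x| + |h x - g x|) ∂μ := by
    refine integral_mono i0 ((i1.add i2).add i3) fun x => ?_
    change |h (x + z) - h x| ≤ |h (x + z) - g (x + z)| + |g (x + z) - g x| + |h x - g x|
    have : h (x + z) - h x = (h (x + z) - g (x + z)) + (g (x + z) - g x) - (h x - g x) := by ring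
    rw [this]
    refine (abs_sub _ _).trans ?_
    have := abs_add_le (h (x + z) - g (x + z)) (g (x + z) - g x)
    linarith
  have e5 : ∫ x, (|h (x + z) - g (x + z)| + |g (x + z) - g x| + |h x - g x|) ∂μ =
      ∫ x, |h (x + z) - g (x + z)| ∂μ + ∫ x, |g (x + z) - g x| ∂μ + ∫ x, |h x - g x| ∂μ := by
    have h1 := integral_add (μ := μ) (i1.add i2) i3
    have h2 := integral_add (μ := μ) i1 i2
    simp only [Pi.add_apply] at h1 h2
    rw [h1, h2]
  rw [e5, e1] at e4
  linarith

end

/-! ### The main construction -/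

section main

variable {G : Type} [AddCommGroup G] [TopologicalSpace G] [IsTopologicalAddGroup G]
  [CompactSpace G] [T2Space G] [SecondCountableTopology G] [MeasurableSpace G] [BorelSpace G]

/-- A dense sequence together with measurable approximations to the identity. -/
theorem exists_approx : ∃ (q : ℕ → G) (π : ℕ → G → ℕ), (∀ m, Measurable (π m)) ∧
    ∀ W ∈ 𝓝 (0 : G), ∃ M, ∀ m, M ≤ m → ∀ x, x - q (π m x) ∈ W := by
  classical
  obtain ⟨V, hV⟩ := (𝓝 (0 : G)).exists_antitone_basis
  let U : ℕ → Set G := fun m => interior (V m)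
  have hU : ∀ m, U m ∈ 𝓝 (0 : G) := fun m => interior_mem_nhds.2 (hV.mem m)
  have hd : DenseRange (TopologicalSpace.denseSeq G) := TopologicalSpace.denseRange_denseSeq G
  have hex : ∀ (m : ℕ) (x : G), ∃ n, x - TopologicalSpace.denseSeq G n ∈ U m := by
    intro m x
    have hopen : IsOpen {y : G | x - y ∈ U m} :=
      isOpen_interior.preimage (continuous_const.sub continuous_id)
    have hne : {y : G | x - y ∈ U m}.Nonempty := ⟨x, by
      change x - x ∈ U m
      rw [sub_self]
      exact mem_of_mem_nhds (hU m)⟩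
    obtain ⟨n, hn⟩ := hd.exists_mem_open hopen hne
    exact ⟨n, hn⟩
  refine ⟨TopologicalSpace.denseSeq G, fun m x => Nat.find (hex m x), fun m => ?_, ?_⟩
  · refine measurable_find (hex m) fun k => ?_
    exact (isOpen_interior.preimage (continuous_id.sub continuous_const)).measurableSet
  · intro W hW
    obtain ⟨M, hM⟩ := hV.mem_iff.1 hW
    refine ⟨M, fun m hm x => hM (hV.antitone hm (interior_subset (Nat.find_spec (hex m x))))⟩

variable (μ : Measure G) [IsProbabilityMeasure μ] [μ.IsAddLeftInvariant]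

omit [AddCommGroup G] [TopologicalSpace G] [IsTopologicalAddGroup G]
  [CompactSpace G] [T2Space G] [SecondCountableTopology G] [BorelSpace G] in
/-- Measurability of a function given piecewise. -/
theorem measurable_piece (F : ℕ → BM G) (π : G → ℕ) (hπ : Measurable π) (τ : G → G)
    (hτ : Measurable τ) : Measurable fun x => (F (π x)).1 (τ x) := by
  have h1 : Measurable fun q : ℕ × G => (F q.1).1 q.2 :=
    measurable_from_prod_countable_right fun n => measurable_BM (F n)
  exact h1.comp (hπ.prodMk hτ)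

/-- The approximate convolutions are uniformly equicontinuous. -/
theorem equicont (F : StoneCech ℕ →ᵇ BM G) (ε : ℝ) (hε : 0 < ε) :
    ∀ᶠ z in 𝓝 (0 : G), ∀ (π : G → ℕ), Measurable π → ∀ a : G,
      |∫ x, (F (stoneCechUnit (π x))).1 (x + (a + z)) ∂μ -
        ∫ x, (F (stoneCechUnit (π x))).1 (x + a) ∂μ| ≤ ε := by
  classical
  obtain ⟨t, -, htf, htc⟩ := (isCompact_range F.continuous).finite_cover_balls
    (div_pos hε (by norm_num : (0 : ℝ) < 4))
  have hcard : (0 : ℝ) < 2 * (htf.toFinset.card + 1) := by positivity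
  have hev : ∀ᶠ z in 𝓝 (0 : G), ∀ h ∈ htf.toFinset,
      ∫ x, |h.1 (x + z) - h.1 x| ∂μ < ε / (2 * (htf.toFinset.card + 1)) := by
    rw [Filter.eventually_all_finset]
    intro h _
    exact transl μ _ (measurable_BM h) ‖h‖ (abs_le_norm h) _ (div_pos hε hcard)
  filter_upwards [hev] with z hz π hπ a
  have m1 : Measurable fun x => (F (stoneCechUnit (π x))).1 (x + (a + z)) :=
    measurable_piece (fun n => F (stoneCechUnit n)) π hπ _ (measurable_add_const _)
  have m2 : Measurable fun x => (F (stoneCechUnit (π x))).1 (x + a) :=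
    measurable_piece (fun n => F (stoneCechUnit n)) π hπ _ (measurable_add_const _)
  have hb : ∀ p (x : G), |(F p).1 x| ≤ ‖F‖ := fun p x =>
    (abs_le_norm _ _).trans (F.norm_coe_le_norm p)
  have i1 := integrable_bdd μ _ m1 ‖F‖ (fun x => hb _ _)
  have i2 := integrable_bdd μ _ m2 ‖F‖ (fun x => hb _ _)
  have mh : ∀ h : BM G, Measurable fun x => h.1 (x + (a + z)) - h.1 (x + a) := fun h =>
    ((measurable_BM h).comp (measurable_add_const _)).sub
      ((measurable_BM h).comp (measurable_add_const _))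
  have ih : ∀ h : BM G, Integrable (fun x => |h.1 (x + (a + z)) - h.1 (x + a)|) μ := fun h =>
    (integrable_bdd μ _ (mh h) (‖h‖ + ‖h‖) (fun x =>
      (abs_sub _ _).trans (add_le_add (abs_le_norm h _) (abs_le_norm h _)))).abs
  rw [← integral_sub i1 i2]
  have key : ∀ x, |(F (stoneCechUnit (π x))).1 (x + (a + z)) - (F (stoneCechUnit (π x))).1 (x + a)|
      ≤ ε / 2 + ∑ h ∈ htf.toFinset, |h.1 (x + (a + z)) - h.1 (x + a)| := by
    intro x
    have hmem : F (stoneCechUnit (π x)) ∈ ⋃ y ∈ t, Metric.ball y (ε / 4) :=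
      htc (mem_range_self _)
    simp only [mem_iUnion] at hmem
    obtain ⟨h, hht, hball⟩ := hmem
    rw [Metric.mem_ball, dist_eq_norm] at hball
    set f := F (stoneCechUnit (π x)) with hf
    have b1 : ∀ y, |f.1 y - h.1 y| ≤ ε / 4 := fun y => by
      rw [← sub_apply_BM]
      exact (abs_le_norm _ _).trans hball.le
    have b2 : f.1 (x + (a + z)) - f.1 (x + a) = (f.1 (x + (a + z)) - h.1 (x + (a + z))) -
        (f.1 (x + a) - h.1 (x + a)) + (h.1 (x + (a + z)) - h.1 (x + a)) := by ring
    rw [b2]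
    have b3 : |h.1 (x + (a + z)) - h.1 (x + a)| ≤
        ∑ h ∈ htf.toFinset, |h.1 (x + (a + z)) - h.1 (x + a)| :=
      Finset.single_le_sum (f := fun h : BM G => |h.1 (x + (a + z)) - h.1 (x + a)|)
        (fun h _ => abs_nonneg _) (htf.mem_toFinset.2 hht)
    refine (abs_add_le _ _).trans ?_
    refine add_le_add ?_ b3
    refine (abs_sub _ _).trans ?_
    have := b1 (x + (a + z))
    have := b1 (x + a)
    linarith
  have hsumint : Integrable (fun x => ∑ h ∈ htf.toFinset, |h.1 (x + (a + z)) - h.1 (x + a)|) μ :=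
    integrable_finsetSum _ fun h _ => ih h
  refine (abs_integral_le_integral_abs).trans ?_
  refine (integral_mono (i1.sub i2).abs ((integrable_const (ε / 2)).add hsumint) key).trans ?_
  have e1 : ∫ x, (ε / 2 + ∑ h ∈ htf.toFinset, |h.1 (x + (a + z)) - h.1 (x + a)|) ∂μ =
      ε / 2 + ∑ h ∈ htf.toFinset, ∫ x, |h.1 (x + (a + z)) - h.1 (x + a)| ∂μ := by
    rw [integral_add (integrable_const _) hsumint, integral_finsetSum _ fun h _ => ih h]
    simp
  change ∫ x, (ε / 2 + ∑ h ∈ htf.toFinset, |h.1 (x + (a + z)) - h.1 (x + a)|) ∂μ ≤ ε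
  rw [e1]
  have e2 : ∀ h ∈ htf.toFinset, ∫ x, |h.1 (x + (a + z)) - h.1 (x + a)| ∂μ ≤
      ε / (2 * (htf.toFinset.card + 1)) := by
    intro h hh
    have e3 := integral_translate μ (fun x => |h.1 (x + z) - h.1 x|) a
    have e4 : (fun x => |h.1 (x + (a + z)) - h.1 (x + a)|) =
        fun x => |h.1 (x + a + z) - h.1 (x + a)| := by
      funext x; rw [add_assoc]
    rw [e4, e3]
    exact (hz h hh).le
  have e5 := Finset.sum_le_sum e2
  rw [Finset.sum_const, nsmul_eq_mul] at e5
  have e6 : (htf.toFinset.card : ℝ) * (ε / (2 * (htf.toFinset.card + 1))) ≤ ε / 2 := by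
    rw [mul_div_assoc', div_le_div_iff₀ hcard (by norm_num)]
    nlinarith [hε.le, Nat.cast_nonneg (α := ℝ) htf.toFinset.card]
  linarith

end main

end Pool.Agent.Helper21.CWW
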