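import Mathlib
import Pool.Agent.Helper21.CWW.Conv

set_option autoImplicit false
set_option linter.unusedSectionVars false
set_option synthInstance.maxHeartbeats 400000

/-!
# The two operators
-/

open Set Filter Topology BoundedContinuousFunction MeasureTheory
open scoped ENNReal

namespace Pool.Agent.Helper21.CWW

variable {G : Type} [AddCommGroup G] [TopologicalSpace G] [IsTopologicalAddGroup G]
  [CompactSpace G] [T2Space G] [SecondCountableTopology G] [MeasurableSpace G] [BorelSpace G]

/-- Translates of a continuous function. -/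
noncomputable def tr (g : G → ℝ) (hg : Continuous g) (C : ℝ) (hC : ∀ x, |g x| ≤ C) (s : G) :
    BM G :=
  mkBM (fun y => g (y - s)) ((hg.comp (continuous_id.sub continuous_const)).measurable) C
    (fun _ => hC _)

theorem continuous_tr (g : G → ℝ) (hg : Continuous g) (C : ℝ) (hC : ∀ x, |g x| ≤ C) :
    Continuous (tr g hg C hC) := by
  rw [continuous_iff_continuousAt]
  intro s
  rw [ContinuousAt, Metric.tendsto_nhds]
  intro ε hε
  have h1 := unif g hg (ε / 2) (half_pos hε)
  have h2 : ∀ᶠ s' in 𝓝 s, ∀ y, |g (y + (s - s')) - g y| < ε / 2 := by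
    have h3 : Tendsto (fun s' => s - s') (𝓝 s) (𝓝 0) := by
      have : Tendsto (fun s' => s - s') (𝓝 s) (𝓝 (s - s)) :=
        (continuous_const.sub continuous_id).tendsto s
      rwa [sub_self] at this
    exact h3.eventually h1
  filter_upwards [h2] with s' hs'
  rw [dist_eq_norm]
  refine lt_of_le_of_lt (norm_le_BM _ (ε / 2) (half_pos hε).le fun y => ?_) (half_lt_self hε)
  rw [sub_apply_BM]
  change |g (y - s') - g (y - s)| ≤ ε / 2
  have h4 := hs' (y - s)
  have h5 : y - s + (s - s') = y - s' := by abel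
  rw [h5] at h4
  exact h4.le

variable {Ω : Type*} [TopologicalSpace Ω]

/-- The operator `T f p = f (r (· - θ p))`. -/
theorem exists_T (r : G → Ω) (hr : Continuous r) (θ : StoneCech ℕ → G) (hθ : Continuous θ) :
    ∃ T : (Ω →ᵇ ℝ) →L[ℝ] (StoneCech ℕ →ᵇ BM G),
      ∀ f p y, (T f p).1 y = f (r (y - θ p)) := by
  let T0 : (Ω →ᵇ ℝ) → (StoneCech ℕ →ᵇ BM G) := fun f =>
    BoundedContinuousFunction.ofNormedAddCommGroup
      (fun p => tr (fun y => f (r y)) (f.continuous.comp hr) ‖f‖ (fun _ => f.norm_coe_le_norm _)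
        (θ p))
      ((continuous_tr _ _ _ _).comp hθ) ‖f‖
      (fun p => norm_le_BM _ _ (norm_nonneg f) fun y => f.norm_coe_le_norm _)
  have hT0 : ∀ f p y, (T0 f p).1 y = f (r (y - θ p)) := fun f p y => rfl
  refine ⟨LinearMap.mkContinuous
    { toFun := T0
      map_add' := fun f g => by
        ext p : 1
        apply ext_BM
        intro y
        rw [BoundedContinuousFunction.add_apply, add_apply_BM, hT0, hT0, hT0]
        rfl
      map_smul' := fun c f => by
        ext p : 1
        apply ext_BM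
        intro y
        rw [RingHom.id_apply, BoundedContinuousFunction.smul_apply, smul_apply_BM, hT0, hT0]
        rfl } 1 (fun f => ?_), hT0⟩
  rw [one_mul]
  exact (BoundedContinuousFunction.norm_le (norm_nonneg f)).2 fun p =>
    norm_le_BM _ _ (norm_nonneg f) fun y => f.norm_coe_le_norm _

variable (μ : Measure G) [IsProbabilityMeasure μ] [μ.IsAddLeftInvariant]

/-- The approximate convolutions. -/
noncomputable def cv (F : StoneCech ℕ →ᵇ BM G) (π : G → ℕ) (a : G) : ℝ :=
  ∫ x, (F (stoneCechUnit (π x))).1 (x + a) ∂μ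

theorem abs_cv_le (F : StoneCech ℕ →ᵇ BM G) (π : G → ℕ) (a : G) : |cv μ F π a| ≤ ‖F‖ :=
  abs_integral_le μ _ _ fun _ => (abs_le_norm _ _).trans (F.norm_coe_le_norm _)

theorem integrable_cv (F : StoneCech ℕ →ᵇ BM G) (π : G → ℕ) (hπ : Measurable π) (a : G) :
    Integrable (fun x => (F (stoneCechUnit (π x))).1 (x + a)) μ :=
  integrable_bdd μ _ (measurable_piece (fun n => F (stoneCechUnit n)) π hπ _
    (measurable_add_const _)) ‖F‖ fun _ => (abs_le_norm _ _).trans (F.norm_coe_le_norm _)

theorem continuous_ul_cv (F : StoneCech ℕ →ᵇ BM G) (π : ℕ → G → ℕ) (hπ : ∀ m, Measurable (π m)) :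
    Continuous fun a : G => ul fun m => cv μ F (π m) a := by
  rw [continuous_iff_continuousAt]
  intro a
  rw [ContinuousAt, Metric.tendsto_nhds]
  intro ε hε
  have h1 := equicont μ F (ε / 2) (half_pos hε)
  have h2 : ∀ᶠ a' in 𝓝 a, ∀ (π : G → ℕ), Measurable π → ∀ b : G,
      |∫ x, (F (stoneCechUnit (π x))).1 (x + (b + (a' - a))) ∂μ -
        ∫ x, (F (stoneCechUnit (π x))).1 (x + b) ∂μ| ≤ ε / 2 := by
    have h3 : Tendsto (fun a' => a' - a) (𝓝 a) (𝓝 0) := by
      have : Tendsto (fun a' => a' - a) (𝓝 a) (𝓝 (a - a)) :=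
        (continuous_id.sub continuous_const).tendsto a
      rwa [sub_self] at this
    exact h3.eventually h1
  filter_upwards [h2] with a' ha'
  rw [Real.dist_eq]
  refine lt_of_le_of_lt (abs_ul_sub_le _ _ ‖F‖ ‖F‖ (ε / 2) (fun m => abs_cv_le μ F _ _)
    (fun m => abs_cv_le μ F _ _) fun m => ?_) (half_lt_self hε)
  have h4 := ha' (π m) (hπ m) a
  have h5 : a + (a' - a) = a' := by abel
  rw [h5] at h4
  exact h4

/-- The operator `P`. -/
theorem exists_P (ι : Ω → G) (hι : Continuous ι) (π : ℕ → G → ℕ) (hπ : ∀ m, Measurable (π m)) :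
    ∃ P : (StoneCech ℕ →ᵇ BM G) →L[ℝ] (Ω →ᵇ ℝ),
      ∀ F ω, P F ω = ul fun m => cv μ F (π m) (ι ω) := by
  let P0 : (StoneCech ℕ →ᵇ BM G) → (Ω →ᵇ ℝ) := fun F =>
    BoundedContinuousFunction.ofNormedAddCommGroup
      (fun ω => ul fun m => cv μ F (π m) (ι ω)) ((continuous_ul_cv μ F π hπ).comp hι) ‖F‖
      (fun ω => abs_ul_le _ _ fun m => abs_cv_le μ F _ _)
  have hP0 : ∀ F ω, P0 F ω = ul fun m => cv μ F (π m) (ι ω) := fun F ω => rfl
  refine ⟨LinearMap.mkContinuous
    { toFun := P0
      map_add' := fun F F' => by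
        ext ω
        rw [BoundedContinuousFunction.add_apply, hP0, hP0, hP0,
          ← ul_add _ _ ‖F‖ ‖F'‖ (fun m => abs_cv_le μ F _ _) (fun m => abs_cv_le μ F' _ _)]
        congr 1
        funext m
        unfold cv
        rw [← integral_add (integrable_cv μ F _ (hπ m) _) (integrable_cv μ F' _ (hπ m) _)]
        rfl
      map_smul' := fun c F => by
        ext ω
        rw [RingHom.id_apply, BoundedContinuousFunction.smul_apply, hP0, hP0, smul_eq_mul,
          ← ul_mul _ ‖F‖ c (fun m => abs_cv_le μ F _ _)]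
        congr 1
        funext m
        unfold cv
        rw [← integral_const_mul]
        rfl } 1 (fun F => ?_), hP0⟩
  rw [one_mul]
  exact (BoundedContinuousFunction.norm_le (norm_nonneg F)).2 fun ω =>
    abs_ul_le _ _ fun m => abs_cv_le μ F _ _

include μ in
/-- If `Ω` is a retract of the compact group `G`, then the bounded continuous functions on `Ω` are
complemented in `C(βℕ, X)` for the space `X` of bounded measurable functions on `G`. -/
theorem complemented (ι : Ω → G) (hι : Continuous ι) (r : G → Ω) (hr : Continuous r)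
    (hrι : ∀ ω, r (ι ω) = ω) :
    ∃ (T : (Ω →ᵇ ℝ) →L[ℝ] (StoneCech ℕ →ᵇ BM G)) (P : (StoneCech ℕ →ᵇ BM G) →L[ℝ] (Ω →ᵇ ℝ)),
      P.comp T = ContinuousLinearMap.id ℝ _ := by
  obtain ⟨q, π, hπ, hq⟩ := exists_approx (G := G)
  have hqc : Continuous q := continuous_of_discreteTopology
  obtain ⟨T, hT⟩ := exists_T r hr (stoneCechExtend hqc) (continuous_stoneCechExtend hqc)
  obtain ⟨P, hP⟩ := exists_P μ ι hι π hπ
  refine ⟨T, P, ?_⟩
  ext f ω
  rw [ContinuousLinearMap.comp_apply, ContinuousLinearMap.id_apply, hP]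
  refine ul_eq _ _ ?_
  rw [Metric.tendsto_atTop]
  intro ε hε
  have h1 := unif (fun y => f (r y)) (f.continuous.comp hr) (ε / 2) (half_pos hε)
  obtain ⟨M, hM⟩ := hq _ h1
  refine ⟨M, fun m hm => ?_⟩
  rw [Real.dist_eq]
  have e1 : cv μ (T f) (π m) (ι ω) = ∫ x, f (r (ι ω + (x - q (π m x)))) ∂μ := by
    unfold cv
    congr 1
    funext x
    rw [hT, stoneCechExtend_stoneCechUnit]
    congr 2
    abel
  have e2 : f ω = ∫ _x, f (r (ι ω)) ∂μ := by
    rw [hrι, integral_const]
    simp
  have i1 : Integrable (fun x => f (r (ι ω + (x - q (π m x))))) μ := by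
    refine integrable_bdd μ _ ?_ ‖f‖ (fun x => f.norm_coe_le_norm _)
    have hqm : Measurable fun x => q (π m x) := (measurable_from_top (f := q)).comp (hπ m)
    exact (f.continuous.comp hr).measurable.comp
      (measurable_const.add (measurable_id.sub hqm))
  rw [e1]
  conv_lhs => rw [e2]
  rw [← integral_sub i1 (integrable_const _)]
  refine lt_of_le_of_lt (abs_integral_le μ _ (ε / 2) fun x => ?_) (half_lt_self hε)
  have h2 := hM m hm x
  exact (h2 (ι ω)).le

end Pool.Agent.Helper21.CWW
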