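import Pool.Statements.S06412
import Pool.Agent.Helper21.CWW.Oper

set_option autoImplicit false
open scoped BoundedContinuousFunction
open Pool Pool.MP_dec21a_an

namespace Pool.Agent.Helper21.CWW.Final

open Set Filter Topology MeasureTheory Pool.Agent.Helper21.CWW

/-- The Cantor group. -/
abbrev G : Type := ℕ → ZMod 2

/-- The space `[0, ω^ω]`. -/
abbrev Om : Type 1 := Set.Icc (0 : Ordinal.{0}) (Ordinal.omega0.{0} ^ Ordinal.omega0.{0})

theorem countable_Om : Countable Om := by
  have h1 : (Iic (Ordinal.omega0.{0} ^ Ordinal.omega0.{0})).Countable := by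
    rw [← Order.Iio_succ, ← Cardinal.le_aleph0_iff_set_countable, Cardinal.mk_Iio_ordinal]
    have h2 : (Ordinal.omega0.{0} ^ Ordinal.omega0.{0}).card ≤ Cardinal.aleph0 := by
      refine (Ordinal.card_opow_le _ _).trans ?_
      simp
    have h3 : (Order.succ (Ordinal.omega0.{0} ^ Ordinal.omega0.{0})).card ≤ Cardinal.aleph0 := by
      rw [Ordinal.card_succ]
      exact Cardinal.add_le_aleph0.2 ⟨h2, Cardinal.one_le_aleph0⟩
    have h4 := Cardinal.lift_le.{1}.2 h3
    rwa [Cardinal.lift_aleph0] at h4
  have h5 : (Set.Icc (0 : Ordinal.{0}) (Ordinal.omega0.{0} ^ Ordinal.omega0.{0})).Countable :=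
    h1.mono Icc_subset_Iic_self
  exact h5.to_subtype

instance : CompactSpace Om := isCompact_iff_compactSpace.1 isCompact_Icc

/-- `[0, ω^ω]` is a retract of the Cantor group. -/
theorem exists_retract : ∃ (ι : Om → G) (r : G → Om), Continuous ι ∧ Continuous r ∧
    ∀ ω, r (ι ω) = ω := by
  classical
  have hc := countable_Om
  have hne : Nonempty Om := ⟨⟨0, ⟨le_rfl, zero_le⟩⟩⟩
  obtain ⟨β, hβ⟩ := exists_surjective_nat Om
  let ι : Om → G := fun α n => if α ≤ β n then 1 else 0
  have hι : Continuous ι := by
    refine continuous_pi fun n => ?_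
    have hcl : IsClopen {α : Om | α ≤ β n} := by
      refine ⟨isClosed_le continuous_id continuous_const, ?_⟩
      have : {α : Om | α ≤ β n} = Subtype.val ⁻¹' (Iio (Order.succ (β n : Ordinal.{0}))) := by
        ext α
        simp only [mem_preimage, mem_Iio, Order.lt_succ_iff]
        rfl
      rw [this]
      exact isOpen_Iio.preimage continuous_subtype_val
    exact continuous_const.if (fun a ha => by
      rw [hcl.frontier_eq] at ha
      exact absurd ha (notMem_empty a)) continuous_const
  have hinj : Function.Injective ι := by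
    intro α α' h
    have key : ∀ α α' : Om, ι α = ι α' → α' ≤ α := by
      intro α α' h
      obtain ⟨n, hn⟩ := hβ α
      have h1 : ι α n = 1 := by
        simp only [ι, hn, le_refl, if_true]
      have h2 : ι α' n = 1 := by rw [← h, h1]
      by_contra hlt
      have h3 : ι α' n = 0 := by
        simp only [ι, hn, if_neg hlt]
      rw [h3] at h2
      exact absurd h2 (by decide)
    exact le_antisymm (key α' α h.symm) (key α α' h)
  have hemb : IsClosedEmbedding ι := hι.isClosedEmbedding hinj
  obtain ⟨f, hf, -, hfc⟩ := PiNat.exists_retraction_subtype_of_isClosed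
    (E := fun _ : ℕ => ZMod 2) hemb.isClosed_range (range_nonempty ι)
  let e : Om ≃ₜ range ι := hemb.isEmbedding.toHomeomorph
  refine ⟨ι, fun x => e.symm (f x), hι, e.symm.continuous.comp hfc, fun ω => ?_⟩
  have h1 : f (ι ω) = e ω := by
    have := hf (e ω)
    exact this
  change e.symm (f (ι ω)) = ω
  rw [h1, e.symm_apply_apply]

/-- The negation of the preceding statement: For every real Banach space X: if C[0, ω^ω] embeds as a complemented subspace of C(βℕ, X), i.e. bounded T, P with P∘T = id, then c_0 embeds as a complemented subspace of X. -/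
theorem result :
    ¬ (∀ (X : Type) [NormedAddCommGroup X] [NormedSpace ℝ X] [CompleteSpace X],
      (∃ (T : (Set.Icc (0 : Ordinal.{0}) (Ordinal.omega0.{0} ^ Ordinal.omega0.{0}) →ᵇ ℝ)
              →L[ℝ] (StoneCech ℕ →ᵇ X))
          (P : (StoneCech ℕ →ᵇ X)
              →L[ℝ] (Set.Icc (0 : Ordinal.{0}) (Ordinal.omega0.{0} ^ Ordinal.omega0.{0}) →ᵇ ℝ)),
          P.comp T = ContinuousLinearMap.id ℝ _) →
      ∃ (T : ZeroAtInftyContinuousMap ℕ ℝ →L[ℝ] X)
        (P : X →L[ℝ] ZeroAtInftyContinuousMap ℕ ℝ),
        P.comp T = ContinuousLinearMap.id ℝ _) := by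
  intro h
  obtain ⟨ι, r, hι, hr, hrι⟩ := exists_retract
  let μ : Measure G := Measure.addHaarMeasure (⊤ : TopologicalSpace.PositiveCompacts G)
  have hμ : IsProbabilityMeasure μ := ⟨by
    have := Measure.addHaarMeasure_self (K₀ := (⊤ : TopologicalSpace.PositiveCompacts G))
    simpa using this⟩
  obtain ⟨T, P, hTP⟩ := h (BM G) (complemented μ ι hι r hr hrι)
  exact no_c0 T P hTP

end Pool.Agent.Helper21.CWW.Final
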